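import Pool.Agent.N520.RO.Stm4b

/-!
# Project RO, second part, DICH: everything or invariant under one plate (helper712)
-/

set_option autoImplicit false

open Set Filter Topology Metric
open Pool.Agent.W689.Mk Pool.Agent.R522.Mk.Rk

namespace Pool.Agent.N712.RO

open Pool.Agent.N520.RO

theorem t_dich : S_DICH := by
  intro V F _ _ _ _ _ _ P hP Ω r hΩ hne hr hB
  by_cases hall : ∀ p ∈ closure Ω, p ∈ Ω
  · left
    have hcl : IsClosed Ω := isClosed_of_closure_subset hall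
    exact IsClopen.eq_univ ⟨hcl, hΩ⟩ hne
  right
  push Not at hall
  obtain ⟨p, hp, hp'⟩ := hall
  obtain ⟨k, hk⟩ := hB p hp hp'
  refine ⟨k, hk.1.1, fun y hy f => ?_⟩
  by_contra hcon
  obtain ⟨T, hT⟩ : ∃ T : Set ℝ, T = {t | t ∈ Icc (0 : ℝ) 1 ∧ y + t • k f ∉ Ω} := ⟨_, rfl⟩
  have hcont : Continuous fun t : ℝ => y + t • k f := by fun_prop
  have hTc : IsCompact T := by
    have h1 : T = Icc (0 : ℝ) 1 ∩ (fun t : ℝ => y + t • k f) ⁻¹' Ωᶜ := by rw [hT]; rfl
    rw [h1]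
    exact isCompact_Icc.inter_right (hΩ.isClosed_compl.preimage hcont)
  have hTne : T.Nonempty := ⟨1, by rw [hT]; exact ⟨⟨zero_le_one, le_rfl⟩, by rwa [one_smul]⟩⟩
  obtain ⟨t, htT, htmin⟩ := hTc.exists_isLeast hTne
  have ht : t ∈ Icc (0 : ℝ) 1 ∧ y + t • k f ∉ Ω := by rw [hT] at htT; exact htT
  have ht0 : 0 < t := by
    rcases ht.1.1.eq_or_lt with h | h
    · exfalso
      apply ht.2
      rwa [← h, zero_smul, add_zero]
    · exact h
  have hlt : ∀ s : ℝ, 0 ≤ s → s < t → y + s • k f ∈ Ω := by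
    intro s hs0 hst
    by_contra hs
    have h1 : s ∈ T := by rw [hT]; exact ⟨⟨hs0, hst.le.trans ht.1.2⟩, hs⟩
    exact absurd (htmin h1) (not_le.2 hst)
  have hq : y + t • k f ∈ closure Ω := by
    have h1 : t ∈ closure (Ico (0 : ℝ) t) := by
      rw [closure_Ico ht0.ne]
      exact right_mem_Icc.2 ht0.le
    exact map_mem_closure (f := fun s : ℝ => y + s • k f) hcont h1
      fun s (hs : s ∈ Ico (0 : ℝ) t) => hlt s hs.1 hs.2
  obtain ⟨l, hl⟩ := hB _ hq ht.2
  obtain ⟨g, hg⟩ : -(t • k f) ∈ range l := by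
    rw [← parallel hP hr hB hk hl]
    exact ⟨-(t • f), by rw [map_neg, map_smul]⟩
  obtain ⟨-, h4, -⟩ := whole hP hr hB hl g
  apply h4
  rw [hg, add_neg_cancel_right]
  exact hy

end Pool.Agent.N712.RO
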